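import Pool.Agent.Results.MP_1a953e_ag.DefectlessPoints
import Pool.Agent.Q299.SS.A5

/-!
MP_1a953e_ag: semistable uniformization, in all dimensions, of the points of any support.

Let `k` be a (complete) discretely valued field with the ring of integers `O`, the uniformizer `π`
and the residue characteristic `p ≥ 0`. Let `X` be an integral projective `k`-scheme of any
dimension with the function field `K`, with the projective flat model `𝒳` over `O`. A point of the
Berkovich analytification of `X` is a pair `(x, v)` of a point `x` of the scheme `X` and a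
multiplicative norm `v` on the residue field `κ = κ(x)` which extends the one of `k`. The starting
results treat the points over the generic point of `X`. Here the point `x` is any point at which
`X` is regular. Suppose that `κ(x)` is reached from `k` by a tower of transcendental steps without
limit key polynomials and finite extensions without defect with respect to `v`, and that `|π|` is
not a `p`-th power in the value group of `v`. Then there are numbers `d`, prime to `p`, and `N₀` such
that, for every `N ≥ N₀` divisible by `d` (for example, prime to `p`), for `l = k(ϖ)`, `ϖ ^ N = π`,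
with the ring of integers `O[ϖ]`, and for every preimage `(x', v')` of `(x, v)` in the
analytification of `X_l`, a blowing-up of `𝒳 ⊗ O[ϖ]` in a closed subscheme of the special fibre,
that is, an admissible blowing-up, is semistable at the specialization of `(x', v')`: its local ring
is regular, and `ϖ` is a product of distinct elements of a regular system of parameters. In
particular, `(x, v)` is uniformizable, by a tamely ramified extension `l / k`.

More generally, the tower may start with a subfield `L` of `κ(x)` which has a noetherian `O`-algebra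
`R` of finite type as a model such that `v` is log uniformizable on `Spec R`. For `L = κ(x)` this
reduces the uniformization of the point `(x, v)` of `X`, for every `X` which is regular at `x`, to
the log uniformization of `v` on a model of its residue field `κ(x)`, that is, on a model of the
closure of `x`, a variety of smaller dimension.
-/

set_option autoImplicit false

universe u

namespace Pool.Agent.Results.MP_1a953e_ag.PointsOfAnySupport

open Pool.Agent.Results.MP_1a953e_ag.DefectlessPoints (chart IsVerticalCentre blowUpCoordinates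
  ramifiedRing IsSemistable Tower IsLogUniformizable IsKey IsDefectless)
open Pool.Agent.W418.LU2 (LogUnif logUnif_of_dedekind)
open Pool.Agent.Q299.RM (Im Im.of_mem Im.ne_zero Im.mul Im.inv Im.unique imr imr_closure)
open Pool.Agent.Q299.SS (ss_pt exists_lift)

/-- The ring `D` is the local ring of `Spec A` at the kernel of the restriction `A → κ` of the
homomorphism `ψ : D → κ`, and `κ` is its residue field. -/
structure IsLocalRingAt {K κ : Type u} [Field K] [Field κ] (A D : Subring K) (ψ : D →+* κ) :
    Prop where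
  /-- `D` contains `A`. -/
  le : A ≤ D
  /-- The elements of `D` are fractions with denominators outside of the kernel of `A → κ`. -/
  frac : ∀ z ∈ D, ∃ a ∈ A, ∃ b : D, (b : K) ∈ A ∧ ψ b ≠ 0 ∧ z = a * (b : K)⁻¹
  /-- The elements outside of the kernel of `ψ` are units. -/
  inv : ∀ b : D, ψ b ≠ 0 → (b : K)⁻¹ ∈ D
  /-- `κ` is the residue field. -/
  surj : Function.Surjective ψ

/-- The local ring of `Spec B` at the centre of the valuation ring `V` of the residue field `κ` of
the local ring `D ⊇ B`: the fractions of elements of `B` whose denominators have as images in `κ`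
units of `V`. -/
def centreRing {K κ : Type u} [Field K] [Field κ] {D : Subring K} (ψ : D →+* κ)
    (V : ValuationSubring κ) (B : Subring K) : Subring K where
  carrier := {z | ∃ a ∈ B, ∃ b : D, (b : K) ∈ B ∧ ψ b ≠ 0 ∧ (ψ b)⁻¹ ∈ V ∧ z = a * (b : K)⁻¹}
  mul_mem' := by
    rintro _ _ ⟨a, ha, b, hb, hb0, hbV, rfl⟩ ⟨a', ha', b', hb', hb0', hbV', rfl⟩
    refine ⟨a * a', B.mul_mem ha ha', b * b', B.mul_mem hb hb', ?_, ?_, ?_⟩
    · rw [map_mul]
      exact mul_ne_zero hb0 hb0'
    · rw [map_mul, mul_inv]
      exact V.mul_mem _ _ hbV hbV'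
    · rw [Subring.coe_mul, mul_inv]
      ring
  one_mem' := ⟨1, B.one_mem, 1, B.one_mem, by rw [map_one]; exact one_ne_zero, by
    rw [map_one, inv_one]; exact V.one_mem, by rw [Subring.coe_one, inv_one, mul_one]⟩
  add_mem' := by
    rintro _ _ ⟨a, ha, b, hb, hb0, hbV, rfl⟩ ⟨a', ha', b', hb', hb0', hbV', rfl⟩
    have h1 : (b : K) ≠ 0 := (Im.of_mem (π := ψ) b.2).ne_zero hb0
    have h2 : (b' : K) ≠ 0 := (Im.of_mem (π := ψ) b'.2).ne_zero hb0'
    refine ⟨a * b' + a' * b, B.add_mem (B.mul_mem ha hb') (B.mul_mem ha' hb), b * b',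
      B.mul_mem hb hb', ?_, ?_, ?_⟩
    · rw [map_mul]
      exact mul_ne_zero hb0 hb0'
    · rw [map_mul, mul_inv]
      exact V.mul_mem _ _ hbV hbV'
    · rw [Subring.coe_mul]
      field_simp
  zero_mem' := ⟨0, B.zero_mem, 1, B.one_mem, by rw [map_one]; exact one_ne_zero, by
    rw [map_one, inv_one]; exact V.one_mem, by rw [zero_mul]⟩
  neg_mem' := by
    rintro _ ⟨a, ha, b, hb, hb0, hbV, rfl⟩
    exact ⟨-a, B.neg_mem ha, b, hb, hb0, hbV, by rw [neg_mul]⟩

/-- The projective scheme `Proj O[W]` is semistable at the centre of the valuation ring `V` of the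
residue field `κ` of the local ring `D` of a point of its generic fibre; this point and the centre
lie in the chart `w ≠ 0`. -/
def IsSemistableAt {K κ : Type u} [Field K] [Field κ] {D : Subring K} (ψ : D →+* κ)
    (V : ValuationSubring κ) (O : Subring K) (W : Set K) (ϖ : K) : Prop :=
  ∃ w ∈ W, w ≠ 0 ∧ chart O W w ≤ D ∧ (∀ z : D, (z : K) ∈ chart O W w → ψ z ∈ V) ∧
    IsSemistable (centreRing ψ V (chart O W w)) ϖ

/-- Let `D` be the local ring of a point `x` of the chart `w ≠ 0` of the projective scheme
`Proj O[W]` with the function field `K`, and let `ψ` be the homomorphism from `D` to the residue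
field `κ`. Let `V` be a valuation ring of `κ`. Then `K' = K(ϖ)` with `ϖ ^ N = π`, the ring `D'` is
the local ring of a point `x'` over `x` of the projective scheme over `O[ϖ]` with the function field
`K'` and the same homogeneous coordinates `W`, the homomorphism `ψ' : D' → κ'` to its residue field
extends `ψ`, and `V'` is a valuation ring of `κ'` over `V`. -/
structure IsLift {K κ K' κ' : Type u} [Field K] [Field κ] [Field K'] [Field κ'] [Algebra K K']
    [Algebra κ κ'] (O : Subring K) (W : Set K) (w : K) {D : Subring K} (ψ : D →+* κ)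
    (V : ValuationSubring κ) (π : K) (N : ℕ) {D' : Subring K'} (ψ' : D' →+* κ')
    (V' : ValuationSubring κ') (ϖ : K') : Prop where
  /-- `ϖ ^ N = π`. -/
  root : ϖ ^ N = algebraMap K K' π
  /-- `K' = K(ϖ)`. -/
  gen : ∀ z : K', z ∈ Subfield.closure (Set.range (algebraMap K K') ∪ {ϖ})
  /-- `D'` is the local ring of a point of the chart `w ≠ 0`, and `κ'` is its residue field. -/
  loc : IsLocalRingAt (chart (ramifiedRing (algebraMap K K') O ϖ) (algebraMap K K' '' W)
    (algebraMap K K' w)) D' ψ'
  /-- This point lies over the given one. -/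
  comp : ∀ z : D, ∃ h : algebraMap K K' z ∈ D', ψ' ⟨algebraMap K K' z, h⟩ = algebraMap κ κ' (ψ z)
  /-- `V'` is a valuation ring over `V`. -/
  val : V'.comap (algebraMap κ κ') = V

/-- Let `k` be a field and `O ⊆ k` a noetherian subring (for example, `k` is a discretely valued
field and `O = k°`), and let `π ≠ 0` be an element of `O` (for example, a uniformizer of `k`). Let
`𝒳` be an integral projective `O`-scheme with the function field `K ⊇ k` and with the homogeneous
coordinates `W`, and let `D` be the local ring of a point `x` of `𝒳` in the chart `w ≠ 0`, with the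
residue field `κ ⊇ k`. Suppose that `D` is regular. Let `v` be a multiplicative norm on `κ` which
has a centre on `𝒳` in the same chart, with `|π| < 1`.

Let `L` be a field, `k ⊆ L ⊆ κ`, and let `R` be an `O`-algebra of finite type with the fraction
field `L` with `|R| ≤ 1`, such that `R` is a Dedekind ring (for example, `L = k` and `R = O = k°`)
or such that the restriction of `v` to `L` is log uniformizable on `Spec R`. Suppose that `κ` is
reached from `L` by a tower of steps without defect, and that `|π|` is not a `p`-th power in the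
value group of `v` if `p` is the residue characteristic of `v`.

Then there are `d` with `|d| = 1` and `N₀` such that for all `N ≥ N₀` divisible by `d` there are
points `(x', v')` over `(x, v)` of the base change to `O[ϖ]`, `ϖ ^ N = π` (of its main component
with the function field `K' = K(ϖ)`, if `K ⊗ k(ϖ)` is not a field), and for all such `(x', v')`
there is a closed subscheme of the fibre over `ϖ = 0` such that the blowing-up in this subscheme is
semistable at the centre of `v'`. -/
theorem result {k K L κ : Type u} [Field k] [Field K] [Field L] [Field κ] [Algebra k K]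
    [Algebra k L] [Algebra L κ] (v : Valuation κ NNReal) (O : Subring k) [IsNoetherianRing O]
    (U : Set L) (hU : U.Finite) (R : Subring L)
    (hOR : R = Subring.closure ((O.map (algebraMap k L) : Set L) ∪ U))
    (hfr : ∀ z : L, ∃ a ∈ R, ∃ b ∈ R, b ≠ 0 ∧ z = a * b⁻¹)
    (hRV : ∀ a ∈ R, v (algebraMap L κ a) ≤ 1)
    (hR : IsDedekindDomain R ∨
      IsLogUniformizable (v.valuationSubring.comap (algebraMap L κ)) R)
    (hκ : Tower L v.valuationSubring ⊤)
    (π : k) (hπ : π ∈ O) (hπ0 : π ≠ 0) (hπ1 : v (algebraMap L κ (algebraMap k L π)) < 1)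
    (hdiv : ∀ p : ℕ, p.Prime → v (p : κ) < 1 →
      ∀ z : κ, v z ^ p ≠ v (algebraMap L κ (algebraMap k L π)))
    (W : Set K) (hW : W.Finite) (w : K) (hw : w ∈ W) (hw0 : w ≠ 0)
    (hWK : ∀ z : K, ∃ a ∈ chart (O.map (algebraMap k K)) W w,
      ∃ b ∈ chart (O.map (algebraMap k K)) W w, b ≠ 0 ∧ z = a * b⁻¹)
    (D : Subring K) (ψ : D →+* κ) (hD : IsLocalRingAt (chart (O.map (algebraMap k K)) W w) D ψ)
    (hψ : ∀ (a : k) (h : algebraMap k K a ∈ D),
      ψ ⟨algebraMap k K a, h⟩ = algebraMap L κ (algebraMap k L a))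
    (hreg : IsRegularLocalRing D) (hv : ∀ z ∈ W, ∀ h : z / w ∈ D, v (ψ ⟨z / w, h⟩) ≤ 1) :
    ∃ d N₀ : ℕ, 0 < d ∧ v (d : κ) = 1 ∧ ∀ N : ℕ, N₀ ≤ N → d ∣ N →
      (∃ (K' κ' : Type u) (_ : Field K') (_ : Field κ') (_ : Algebra K K') (_ : Algebra κ κ')
        (D' : Subring K') (ψ' : D' →+* κ') (V' : ValuationSubring κ') (ϖ : K'),
        IsLift (O.map (algebraMap k K)) W w ψ v.valuationSubring (algebraMap k K π) N ψ' V' ϖ) ∧
      ∀ {K' κ' : Type u} [Field K'] [Field κ'] [Algebra K K'] [Algebra κ κ'] (D' : Subring K')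
        (ψ' : D' →+* κ') (V' : ValuationSubring κ') (ϖ : K'),
        IsLift (O.map (algebraMap k K)) W w ψ v.valuationSubring (algebraMap k K π) N ψ' V' ϖ →
        ∃ Y : Set K',
          IsVerticalCentre (ramifiedRing (algebraMap K K') (O.map (algebraMap k K)) ϖ) ϖ
            (algebraMap K K' '' W) Y ∧
          IsSemistableAt ψ' V' (ramifiedRing (algebraMap K K') (O.map (algebraMap k K)) ϖ)
            (blowUpCoordinates (algebraMap K K' '' W) Y) ϖ := by
  classical
  have hRW : R ≤ (v.valuationSubring.comap (algebraMap L κ)).toSubring := fun a ha => hRV a ha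
  have hOn : ∀ {F : Type u} [Field F] [Algebra k F], IsNoetherianRing (O.map (algebraMap k F)) := by
    intro F _ _
    refine isNoetherianRing_of_surjective O _
      (((algebraMap k F).comp O.subtype).codRestrict (O.map (algebraMap k F))
        fun a => ⟨a, a.2, rfl⟩) ?_
    rintro ⟨_, a, ha, rfl⟩
    exact ⟨⟨a, ha⟩, rfl⟩
  have hOL := hOn (F := L)
  have hOK := hOn (F := K)
  have hRn : IsNoetherianRing R := by
    rw [hOR]
    exact Pool.Agent.TH188.QS.noeth_cl hU
  have hLU : LogUnif (v.valuationSubring.comap (algebraMap L κ)) R := by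
    rcases hR with hR | hR
    · exact logUnif_of_dedekind _ R hRW hfr
    · exact hR
  have kp : ∀ {M : Subfield κ} {θ : κ} {ϕ : Polynomial M}, IsKey v.valuationSubring θ ϕ →
      IsDefectless v.valuationSubring θ ϕ →
      ∃ (n : ℕ) (β : Fin n → Polynomial M), Pool.Agent.H176.DT.KP v.valuationSubring θ ϕ β := by
    rintro M θ ϕ ⟨h1, h2, h3⟩ ⟨n, β, h4, h5, h6⟩
    exact ⟨n, β, h1, h2, fun i => (h4 i).1, fun i => (h4 i).2, h5, h6, h3⟩
  have key : ∀ M : Subfield κ, Tower L v.valuationSubring M →
      Pool.Agent.H176.DT.Inv v.valuationSubring (R.map (algebraMap L κ)) M.subtype := by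
    intro M hM
    induction hM with
    | base => exact Pool.Agent.H176.DT.sub_base v.valuationSubring R ⟨hRW, hfr⟩ hLU
    | transcendental L t _ ht hdom ih =>
      refine Pool.Agent.H176.DT.sub_trans v.valuationSubring _ t ht (fun f => ?_) ih
      obtain ⟨ϕ, h1, h2, N, d, h3, h4, h5⟩ := hdom f
      obtain ⟨n, β, h6⟩ := kp h1 h2
      exact ⟨ϕ, n, β, h6, N, d, ⟨h3, h4⟩, h5⟩
    | finite L L' _ hnd ih => exact Pool.Agent.H176.DT.sub_nd v.valuationSubring _ hnd.1 hnd.2 ih
  -- the chart and its image
  set O' : Subring K := O.map (algebraMap k K) with hO'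
  set A : Subring K := chart O' W w with hA
  set Ob : Subring κ := (O.map (algebraMap k L)).map (algebraMap L κ) with hOb
  have hAD : A ≤ D := hD.le
  have hOI : ∀ a ∈ O, Im ψ (algebraMap k K a) (algebraMap L κ (algebraMap k L a)) := fun a ha =>
    ⟨hAD (Subring.subset_closure (Or.inl ⟨a, ha, rfl⟩)), hψ a _⟩
  have hWD : ∀ z ∈ W, z / w ∈ D := fun z hz => hAD (Subring.subset_closure (Or.inr ⟨z, hz, rfl⟩))
  let f : K → κ := fun z => if hz : z ∈ D then ψ ⟨z, hz⟩ else 0
  have hf : ∀ z ∈ D, Im ψ z (f z) := fun z hz => by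
    have h1 : f z = ψ ⟨z, hz⟩ := dif_pos hz
    rw [h1]
    exact ⟨hz, rfl⟩
  set T : Set κ := (fun z => f (z / w)) '' W with hT
  have hTf : T.Finite := hW.image _
  have him : imr ψ A = Subring.closure ((Ob : Set κ) ∪ T) := by
    refine imr_closure ?_ ?_
    · rintro z (⟨a, ha, rfl⟩ | ⟨y, hy, rfl⟩)
      · exact ⟨_, Or.inl ⟨_, ⟨a, ha, rfl⟩, rfl⟩, hOI a ha⟩
      · exact ⟨_, Or.inr ⟨y, hy, rfl⟩, hf _ (hWD y hy)⟩
    · rintro z (⟨_, ⟨a, ha, rfl⟩, rfl⟩ | ⟨y, hy, rfl⟩)
      · exact ⟨_, Or.inl ⟨a, ha, rfl⟩, hOI a ha⟩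
      · exact ⟨_, Or.inr ⟨y, hy, rfl⟩, hf _ (hWD y hy)⟩
  have hObv : ∀ a ∈ Ob, v a ≤ 1 := by
    rintro _ ⟨a, ha, rfl⟩
    refine hRV a ?_
    rw [hOR]
    exact Subring.subset_closure (Or.inl ha)
  have hTv : ∀ t ∈ T, v t ≤ 1 := by
    rintro _ ⟨y, hy, rfl⟩
    obtain ⟨h1, h2⟩ := hf _ (hWD y hy)
    change v (f (y / w)) ≤ 1
    rw [← h2]
    exact hv y hy h1
  have himV : imr ψ A ≤ v.valuationSubring.toSubring := by
    rw [him, Subring.closure_le]
    rintro z (hz | hz)
    · exact hObv z hz
    · exact hTv z hz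
  have hMod : Pool.Agent.H176.DT.Mod v.valuationSubring (imr ψ A) := by
    refine ⟨himV, fun z => ?_⟩
    obtain ⟨y, rfl⟩ := hD.surj z
    obtain ⟨a, ha, b, hb, hb0, hab⟩ := hD.frac y y.2
    have haI := Im.of_mem (π := ψ) (hAD ha)
    refine ⟨_, ⟨a, ha, haI⟩, ψ b, ⟨b, hb, ⟨b.2, rfl⟩⟩, hb0, ?_⟩
    have hbI : Im ψ (b : K) (ψ b) := ⟨b.2, rfl⟩
    have h1 := haI.mul (hbI.inv hD.inv hb0)
    rw [← hab] at h1
    have h2 : Im ψ (y : K) (ψ y) := ⟨y.2, rfl⟩
    exact h2.unique h1
  -- the uniformization of the image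
  have hU' : (algebraMap L κ '' U).Finite := hU.image _
  have hUV : ∀ u ∈ algebraMap L κ '' U, u ∈ v.valuationSubring := by
    rintro _ ⟨a, ha, rfl⟩
    refine hRV a ?_
    rw [hOR]
    exact Subring.subset_closure (Or.inr ha)
  have hmap : R.map (algebraMap L κ) = Subring.closure ((Ob : Set κ) ∪ algebraMap L κ '' U) := by
    rw [hOR, RingHom.map_closure, Set.image_union]
    rfl
  have hcl : Subring.closure ((imr ψ A : Set κ) ∪ algebraMap L κ '' U) =
      Subring.closure ((R.map (algebraMap L κ) : Set κ) ∪ T) := by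
    rw [hmap, him]
    apply le_antisymm
    · rw [Subring.closure_le]
      rintro z (hz | hz)
      · refine (?_ : Subring.closure ((Ob : Set κ) ∪ T) ≤ _) hz
        rw [Subring.closure_le]
        rintro z (hz | hz)
        · exact Subring.subset_closure (Or.inl (Subring.subset_closure (Or.inl hz)))
        · exact Subring.subset_closure (Or.inr hz)
      · exact Subring.subset_closure (Or.inl (Subring.subset_closure (Or.inr hz)))
    · rw [Subring.closure_le]
      rintro z (hz | hz)
      · refine (?_ : Subring.closure ((Ob : Set κ) ∪ algebraMap L κ '' U) ≤ _) hz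
        rw [Subring.closure_le]
        rintro z (hz | hz)
        · exact Subring.subset_closure (Or.inl (Subring.subset_closure (Or.inl hz)))
        · exact Subring.subset_closure (Or.inr hz)
      · exact Subring.subset_closure (Or.inl (Subring.subset_closure (Or.inr hz)))
  have hle : imr ψ A ≤ Subring.closure ((imr ψ A : Set κ) ∪ algebraMap L κ '' U) :=
    fun z hz => Subring.subset_closure (Or.inl hz)
  have hMod2 : Pool.Agent.H176.DT.Mod v.valuationSubring
      (Subring.closure ((imr ψ A : Set κ) ∪ algebraMap L κ '' U)) := by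
    refine ⟨?_, fun z => ?_⟩
    · rw [Subring.closure_le]
      rintro z (hz | hz)
      · exact himV hz
      · exact hUV z hz
    · obtain ⟨a, ha, b, hb, h⟩ := hMod.2 z
      exact ⟨a, hle ha, b, hle hb, h⟩
  have h1 := Pool.Agent.H176.DT.inv_SU v.valuationSubring (key ⊤ hκ) _ T hTf hcl hMod2
  have hSU : Pool.Agent.H176.DT.SU v.valuationSubring (imr ψ A) :=
    (Pool.Agent.H176.DT.p_move v.valuationSubring (imr ψ A) hMod _ hU' hUV).2 h1
  have hAn : IsNoetherianRing (Pool.Agent.H176.DT.ch O' W w) := by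
    refine Pool.Agent.TH188.QS.noeth_cl ?_
    refine (hW.image fun y => y / w).subset ?_
    rintro z ⟨y, hy, rfl⟩
    exact ⟨y, hy, rfl⟩
  have hpI := hOI π hπ
  obtain ⟨d, N₀, hd, hvd, h3⟩ := ss_pt v O' hW hw hw0 hD.inv hreg (hAD : _) (fun z hz zb hzb =>
      himV ⟨z, hz, hzb⟩) (fun a ha => by
      obtain ⟨b, hb, c, hc, hc0, h⟩ := hD.frac a ha
      exact ⟨b, hb, c, hc, c.2, hc0, h⟩) hWK (p := algebraMap k K π) ⟨π, hπ, rfl⟩ hpI
    ((_root_.map_ne_zero _).2 ((_root_.map_ne_zero _).2 hπ0)) hπ1 hdiv hSU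
  refine ⟨d, N₀ + 1, hd, hvd, fun N hN' hdN => ⟨?_, ?_⟩⟩
  · obtain ⟨K', _, _, ϖ, hϖ, hgen, h4⟩ := exists_lift hD.inv hD.surj v.valuationSubring hAD hD.frac
      (p := algebraMap k K π) (Subring.subset_closure (Or.inl ⟨π, hπ, rfl⟩)) (N := N) (by omega)
    obtain ⟨κ', _, _, D', ψ', V', h5, h6, h7, h8, h9, h10⟩ :=
      h4 (chart (ramifiedRing (algebraMap K K') O' ϖ) (algebraMap K K' '' W)
        (algebraMap K K' w)) (by
        rw [Subring.map_le_iff_le_comap, hA]
        unfold chart
        rw [Subring.closure_le]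
        rintro z (hz | ⟨y, hy, rfl⟩)
        · exact Subring.subset_closure (Or.inl (Subring.subset_closure (Or.inl ⟨z, hz, rfl⟩)))
        · refine Subring.subset_closure (Or.inr ⟨algebraMap K K' y, ⟨y, hy, rfl⟩, ?_⟩)
          rw [map_div₀]) (by
        unfold chart
        rw [Subring.closure_le]
        rintro z (hz | ⟨_, ⟨y, hy, rfl⟩, rfl⟩)
        · refine (?_ : ramifiedRing (algebraMap K K') O' ϖ ≤ _) hz
          unfold ramifiedRing
          rw [Subring.closure_le]
          rintro z (⟨a, ha, rfl⟩ | hz)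
          · exact Subring.subset_closure (Or.inl ⟨a, Subring.subset_closure (Or.inl ha), rfl⟩)
          · exact Subring.subset_closure (Or.inr hz)
        · rw [← map_div₀]
          exact Subring.subset_closure (Or.inl ⟨_, Subring.subset_closure
            (Or.inr ⟨y, hy, rfl⟩), rfl⟩))
    exact ⟨K', κ', inferInstance, inferInstance, inferInstance, inferInstance, D', ψ', V', ϖ, hϖ,
      hgen, ⟨h6, h7, h8, h9⟩, h10, h5⟩
  · have hN : N₀ ≤ N := by omega
    intro K' κ' _ _ _ _ D' ψ' V' ϖ hl
    obtain ⟨Vt, hVt⟩ := Pool.Agent.TH188.ARC.exists_tr D' ψ' V' hl.loc.inv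
    have hcomp : ∀ z zb, Im ψ z zb → Im ψ' (algebraMap K K' z) (algebraMap κ κ' zb) := by
      rintro z _ ⟨hz, rfl⟩
      exact hl.comp ⟨z, hz⟩
    have hϖD : ϖ ∈ D' := hl.loc.le (Subring.subset_closure (Or.inl
      (Subring.subset_closure (Or.inr rfl))))
    obtain ⟨Y, d', n', h4, h5, h6, w', h7, h8, h9, h10, P, h11, h12⟩ :=
      h3 N hN hdN D' ψ' Vt V' ϖ hVt hcomp hl.val hϖD hl.root hl.gen
    refine ⟨Y, ⟨h4, d', n', h5, h6⟩, w', h7, h8, h9, fun z hz =>
      (Pool.Agent.Q299.RM.tr_mem hVt ⟨z.2, rfl⟩).1 (h10 hz), ?_⟩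
    have h13 : centreRing ψ' V' (chart (ramifiedRing (algebraMap K K') O' ϖ)
        (blowUpCoordinates (algebraMap K K' '' W) Y) w') = P := by
      rw [← h11]
      ext z
      constructor
      · rintro ⟨a, ha, b, hb, hb0, hbV, rfl⟩
        have e1 := (Pool.Agent.Q299.RM.tr_unit hVt ⟨b.2, rfl⟩ (h10 hb)).2 ⟨hb0, hbV⟩
        exact ⟨a, ha, b, hb, e1.1, e1.2, rfl⟩
      · rintro ⟨a, ha, b, hb, hb0, hbV, rfl⟩
        have e1 := (Pool.Agent.Q299.RM.tr_unit hVt (Im.of_mem (π := ψ') (h9 hb)) (h10 hb)).1
          ⟨hb0, hbV⟩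
        exact ⟨a, ha, ⟨b, h9 hb⟩, hb, e1.1, e1.2, rfl⟩
    rw [h13]
    exact h12

end Pool.Agent.Results.MP_1a953e_ag.PointsOfAnySupport
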