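import Pool.Agent.Results.MP_1a953e_ag.DefectlessPoints
import Pool.Agent.Results.MP_1a953e_ag.DivergentPoints
import Pool.Agent.TH188.QS.RegBase

/-!
MP_1a953e_ag: semistable uniformization, in all dimensions and also over ground fields of
characteristic `p`, of the points which lie without defect over a point with a divergent sequence of
quadratic transforms.

Let `k` be a (complete) discretely valued field of any characteristic with the ring of integers `O`,
the uniformizer `π` and the residue characteristic `p ≥ 0`. Let `X → S` be a dominant map from an
integral projective `k`-scheme `X` with the function field `K` to an integral `k`-scheme of finite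
type with the function field `E`, which is generically smooth over `k` (that is, `E / k` is
separable; this is no condition in characteristic zero). Let `v` be a point of the Berkovich
analytification of `X` which lies over the generic point of `X`, that is, a multiplicative norm `v`
on `K` which extends the one of `k`. Suppose that

* for some affine model `Spec R` of `E` over `O` the sequence of quadratic transforms of `Spec R`
  along the image of `v` in the analytification of `S` is divergent: the product of the numbers
  `max |m i|`, `m i` the maximal ideal of the `i`-th ring of the sequence, is `0`; there is no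
  condition on the extension `E / k` and its defect, and the value group of `v` on `E` need not be
  discrete;
* `K` is reached from `E` by a tower of transcendental steps without limit key polynomials and
  finite extensions without defect with respect to `v`;
* `|π|` is not a `p`-th power in the value group of `v`.

Then, for every flat projective model `𝒳` of `X` over `O`, there are numbers `d`, prime to `p`, and
`N₀` such that, for every `N ≥ N₀` divisible by `d` (for example, prime to `p`), for `l = k(ϖ)`,
`ϖ ^ N = π`, and for every preimage `v'` of `v` in the analytification of `X_l`, a blowing-up of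
`𝒳 ⊗ O[ϖ]` in a closed subscheme of the special fibre is semistable at the specialization of `v'`.
In particular `v` is uniformizable, by a tamely ramified extension `l / k`.

The case `K = E` is the uniformization of the divergent points over a ground field of any
characteristic (the starting result `DivergentPoints` is the case `K = E`, `char k = 0`); the case
`E = k` is the starting result `DefectlessPoints` for `O = k°`.
-/

set_option autoImplicit false

universe u

namespace Pool.Agent.Results.MP_1a953e_ag.TowersOverDivergentPoints

open Pool.Agent.Results.MP_1a953e_ag.DefectlessPoints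
open Pool.Agent.Results.MP_1a953e_ag.DivergentPoints (IsDivergent)
open Pool.Agent.TH188.QS Pool.Agent.W418.LU2

/-- The vanishing of the first cotangent homology of a field over a Dedekind ring, or any other
domain, with fraction field `L`, if the extension is separable or has characteristic zero. -/
theorem h1_of_sep {L E : Type u} [Field L] [Field E] [Algebra L E] (O : Subring L)
    (hOL : ∀ z : L, ∃ a ∈ O, ∃ b ∈ O, b ≠ 0 ∧ z = a * b⁻¹)
    (hsep : CharZero E ∨ Algebra.FormallySmooth L E) [Algebra O E]
    (hOE : ∀ a : O, algebraMap O E a = algebraMap L E a) :
    Subsingleton (Algebra.H1Cotangent O E) := by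
  rcases hsep with hE | hE
  · refine h1_charZero fun a b h => ?_
    rw [hOE, hOE] at h
    exact Subtype.ext ((algebraMap L E).injective h)
  · have h1 : IsScalarTower O L E := IsScalarTower.of_algebraMap_eq fun a => by
      rw [hOE]
      rfl
    have h2 : IsFractionRing O L := by
      refine IsFractionRing.of_field _ _ fun z => ?_
      obtain ⟨a, ha, b, hb, _, h⟩ := hOL z
      exact ⟨⟨a, ha⟩, ⟨b, hb⟩, h.trans (div_eq_mul_inv _ _).symm⟩
    have h3 : Algebra.FormallySmooth O L := Algebra.FormallySmooth.of_isLocalization
      (nonZeroDivisors O)
    have h4 : Algebra.FormallySmooth O E := Algebra.FormallySmooth.comp O L E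
    exact h4.subsingleton_h1Cotangent

/-- Let `v` be a multiplicative norm on a field `K` with the valuation ring `V`, and let
`L ⊆ E ⊆ K` be fields, such that `E` has characteristic zero or is separable over `L`. Let `O ⊆ V`
be a Dedekind domain with fraction field `L` (for example, `L = k` and `O = k°` for a discretely
valued field `k`), and let `π ≠ 0` be an element of `O` with `|π| < 1` (for example, a uniformizer).
Let `R = O[U] ⊆ V` be an `O`-algebra of finite type with fraction field `E`, such that the sequence
of quadratic transforms of `Spec R` along `V ∩ E` is divergent. Suppose that `K` is reached from `E`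
by a tower of steps without defect, and that `|π|` is not a `p`-th power in the value group of `v`
if `p` is the residue characteristic of `v`. Let `𝒳` be an integral projective `O`-scheme with
function field `K` and with the homogeneous coordinates `W`; let the chart `w ≠ 0` contain the
centre of `V`.

Then there are `d` with `|d| = 1` and `N₀` such that for all `N ≥ N₀` divisible by `d` there are
`K' = K(ϖ)`, `ϖ ^ N = π`, and valuation rings `V'` of `K'` over `V`, and for all such `K'` and `V'`
there is a closed subscheme of the fibre of `𝒳 ⊗ O[ϖ]` over `ϖ = 0` such that the blowing-up in this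
subscheme (the main component if `K ⊗ k(ϖ)` is not a field) is semistable at the centre of `V'`. -/
theorem result {L E K : Type u} [Field L] [Field E] [Field K] [Algebra L E] [Algebra E K]
    (hsep : CharZero E ∨ Algebra.FormallySmooth L E)
    (v : Valuation K NNReal) (O : Subring L) [IsDedekindDomain O]
    (hOL : ∀ z : L, ∃ a ∈ O, ∃ b ∈ O, b ≠ 0 ∧ z = a * b⁻¹)
    (U : Set E) (hU : U.Finite) (R : Subring E)
    (hR : R = Subring.closure ((O.map (algebraMap L E) : Set E) ∪ U))
    (hfr : ∀ z : E, ∃ a ∈ R, ∃ b ∈ R, b ≠ 0 ∧ z = a * b⁻¹)
    (hRV : ∀ a ∈ R, v (algebraMap E K a) ≤ 1)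
    (hdv : IsDivergent (v.valuationSubring.comap (algebraMap E K)) R)
    (hK : Tower E v.valuationSubring ⊤)
    (π : L) (hπ : π ∈ O) (hπ0 : π ≠ 0) (hπ1 : v (algebraMap E K (algebraMap L E π)) < 1)
    (hdiv : ∀ p : ℕ, p.Prime → v (p : K) < 1 →
      ∀ z : K, v z ^ p ≠ v (algebraMap E K (algebraMap L E π)))
    (W : Set K) (hW : W.Finite) (w : K) (hw : w ∈ W) (hw0 : w ≠ 0)
    (hwV : ∀ z ∈ W, v (z / w) ≤ 1)
    (hWK : ∀ z : K, ∃ a ∈ chart ((O.map (algebraMap L E)).map (algebraMap E K)) W w,
      ∃ b ∈ chart ((O.map (algebraMap L E)).map (algebraMap E K)) W w, b ≠ 0 ∧ z = a * b⁻¹) :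
    ∃ d N₀ : ℕ, 0 < d ∧ v (d : K) = 1 ∧ ∀ N : ℕ, N₀ ≤ N → d ∣ N →
      (∃ (K' : Type u) (_ : Field K') (_ : Algebra K K') (V' : ValuationSubring K') (ϖ : K'),
        IsLift v.valuationSubring (algebraMap E K (algebraMap L E π)) N V' ϖ) ∧
      ∀ {K' : Type u} [Field K'] [Algebra K K'] (V' : ValuationSubring K') (ϖ : K'),
        IsLift v.valuationSubring (algebraMap E K (algebraMap L E π)) N V' ϖ →
        ∃ Y : Set K',
          IsVerticalCentre (ramifiedRing ((algebraMap K K').comp (algebraMap E K))
            (O.map (algebraMap L E)) ϖ) ϖ (algebraMap K K' '' W) Y ∧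
          IsSemistableAt V' (ramifiedRing ((algebraMap K K').comp (algebraMap E K))
            (O.map (algebraMap L E)) ϖ) (blowUpCoordinates (algebraMap K K' '' W) Y) ϖ := by
  classical
  letI : Algebra O E := ((algebraMap L E).comp O.subtype).toAlgebra
  have hOE : ∀ a : O, algebraMap O E a = algebraMap L E a := fun a => rfl
  have hH := h1_of_sep O hOL hsep hOE
  have hRW : R ≤ (v.valuationSubring.comap (algebraMap E K)).toSubring := fun a ha => hRV a ha
  have hrange : (((algebraMap O E).range : Subring E) : Set E) =
      (O.map (algebraMap L E) : Set E) := by
    ext z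
    constructor
    · rintro ⟨a, rfl⟩
      exact ⟨a, a.2, rfl⟩
    · rintro ⟨a, ha, rfl⟩
      exact ⟨⟨a, ha⟩, rfl⟩
  have hR' : R = Subring.closure ((((algebraMap O E).range : Subring E) : Set E) ∪ U) := by
    rw [hrange]
    exact hR
  have hfr' : ∀ z : E, Fr (Subring.closure ((((algebraMap O E).range : Subring E) : Set E) ∪ U)) z := by
    intro z
    rw [← hR']
    exact hfr z
  have hgp := gp_fs (k₀ := O) (R := O) (K := E) hH (algebraMap O E) (fun a => rfl) hU hfr'
    (V := v.valuationSubring.comap (algebraMap E K)) (by rw [← hR']; exact hRW)
    (by rw [← hR']; exact hdv.dv)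
  rw [← hR'] at hgp
  obtain ⟨hGP, hnoe⟩ := hgp
  have hLU : LogUnif (v.valuationSubring.comap (algebraMap E K)) R := hGP.logUnif hRW
  exact DefectlessPoints.result v (O.map (algebraMap L E)) R U hU hR hfr hRV (Or.inr hLU) hK
    (algebraMap L E π) ⟨π, hπ, rfl⟩ ((_root_.map_ne_zero _).2 hπ0) hπ1 hdiv W hW w hw hw0 hwV hWK

end Pool.Agent.Results.MP_1a953e_ag.TowersOverDivergentPoints
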